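import Pool.Agent.V11231.OMF.Fin
import Pool.Agent.H587R2.MRB.APSPDefs

/-! All-pairs shortest paths by circuits with unreliable negations of the weights. -/

set_option autoImplicit false
set_option linter.unusedSectionVars false
set_option linter.unusedVariables false

namespace Pool.Agent.V11231.APF

open Finset Pool.Agent.V11231.FLT Pool.Agent.V11231.OMF
open Pool.Agent.H587R2.MRB (walkLen dist)

/-- A circuit with the gates `0, ..., s - 1` for complete directed graphs on `n` vertices. Its
inputs are the weights of the edges and the negated weights: `(e, true)` stands for the weight of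
the edge `e` and `(e, false)` for the number minus this weight. Gate `i` has `w i` inputs (any
number), namely `a i j`, each an input of the circuit or an earlier gate; it computes a
nondecreasing function `op i` of real numbers, and its value on the values `y` of the inputs is
`val y i`. For each pair `q` of vertices there is an output gate `out q`. -/
structure WeightNetwork (n : ℕ) where
  s : ℕ
  w : Fin s → ℕ
  a : (i : Fin s) → Fin (w i) → ((Fin n × Fin n) × Bool) ⊕ Fin s
  op : (i : Fin s) → (Fin (w i) → ℝ) → ℝ
  val : ((Fin n × Fin n) × Bool → ℝ) → Fin s → ℝ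
  out : Fin n × Fin n → Fin s
  earlier : ∀ i j m, a i j = Sum.inr m → m < i
  mono : ∀ i, Monotone (op i)
  spec : ∀ y i, val y i = op i (fun j => Sum.elim y (val y) (a i j))

/-- The number of wires. -/
def WeightNetwork.wires {n : ℕ} (C : WeightNetwork n) : ℕ := ∑ i, C.w i

open Classical in
/-- The values of the inputs for the weights `w` if the negated weights of the edges in `Z` are
stuck at `-1`. -/
noncomputable def weights {n : ℕ} (w : Fin n → Fin n → ℕ) (Z : Set (Fin n × Fin n)) :
    (Fin n × Fin n) × Bool → ℝ :=
  fun p => if p.2 = true then (w p.1.1 p.1.2 : ℝ) else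
    if p.1 ∈ Z then -1 else -(w p.1.1 p.1.2 : ℝ)

/-- The output for the pair `(u, v)` and the weights `w` if the negated weights of the edges in `Z`
are stuck at `-1`. -/
noncomputable def WeightNetwork.output {n : ℕ} (C : WeightNetwork n) (w : Fin n → Fin n → ℕ)
    (Z : Set (Fin n × Fin n)) (u v : Fin n) : ℝ :=
  C.val (weights w Z) (C.out (u, v))

/-- The probability that the output for the pair `(u, v)` is at most `α` times the distance from `u`
to `v`, for a circuit that is chosen uniformly at random from the family `C`, if each negated weight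
is stuck at `-1` independently with probability `1 / D` (each edge `e` gets a random number `f e`
from `0` to `D - 1`, and `0` means a fault). -/
noncomputable def upperProb {n : ℕ} {R : Type} (C : R → WeightNetwork n) (D : ℕ) (α : ℝ)
    (w : Fin n → Fin n → ℕ) (u v : Fin n) : ℝ :=
  (Nat.card {x : R × (Fin n × Fin n → Fin D) //
    (C x.1).output w {e | (x.2 e : ℕ) = 0} u v ≤ α * dist w u v} : ℝ) /
      Nat.card (R × (Fin n × Fin n → Fin D))

/-- The probability that the output for the pair `(u, v)` is less than the distance from `u` to `v`,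
for a circuit that is chosen uniformly at random from the family `C`, without faults. -/
noncomputable def belowProb {n : ℕ} {R : Type} (C : R → WeightNetwork n)
    (w : Fin n → Fin n → ℕ) (u v : Fin n) : ℝ :=
  (Nat.card {ρ : R // (C ρ).output w ∅ u v < dist w u v} : ℝ) / Nat.card R

/-- the gates are monotone -/
lemma wval_mono {n : ℕ} (C : WeightNetwork n) {y z : (Fin n × Fin n) × Bool → ℝ} (h : y ≤ z) :
    ∀ (m : ℕ) (i : Fin C.s), (i : ℕ) = m → C.val y i ≤ C.val z i := by
  intro m
  induction m using Nat.strong_induction_on with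
  | _ m ih =>
    intro i hi
    rw [C.spec y i, C.spec z i]
    apply C.mono i
    intro j
    dsimp only
    rcases hc : C.a i j with p | g
    · rw [Sum.elim_inl, Sum.elim_inl]
      exact h p
    · rw [Sum.elim_inr, Sum.elim_inr]
      have h1 := C.earlier i j g hc
      exact ih g (by rw [← hi]; exact h1) g rfl

/-! ### The graphs -/

section graph

variable {I J K : Type} {n : ℕ} (e : I ⊕ (J ⊕ K) ↪ Fin n) (W : ℕ)

/-- The edges of weight `1`. -/
def Cheap (A : I → K → Prop) (B : K → J → Prop) (u v : Fin n) : Prop :=
  (∃ i y, u = e (Sum.inl i) ∧ v = e (Sum.inr (Sum.inr y)) ∧ A i y) ∨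
    ∃ y j, u = e (Sum.inr (Sum.inr y)) ∧ v = e (Sum.inr (Sum.inl j)) ∧ B y j

open Classical in
/-- The weights. -/
noncomputable def wt (A : I → K → Prop) (B : K → J → Prop) (u v : Fin n) : ℕ :=
  if Cheap e A B u v then 1 else W

variable {e W}

theorem wt_values (A : I → K → Prop) (B : K → J → Prop) (u v : Fin n) :
    wt e W A B u v = 1 ∨ wt e W A B u v = W := by
  unfold wt; split_ifs <;> simp

theorem dist_le_two {A : I → K → Prop} {B : K → J → Prop} {i : I} {j : J}
    (h : ∃ y, A i y ∧ B y j) :
    dist (wt e W A B) (e (Sum.inl i)) (e (Sum.inr (Sum.inl j))) ≤ 2 := by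
  obtain ⟨y, h1, h2⟩ := h
  refine (ciInf_le (OrderBot.bddBelow _) [e (Sum.inr (Sum.inr y))]).trans (le_of_eq ?_)
  have h3 : Cheap e A B (e (Sum.inl i)) (e (Sum.inr (Sum.inr y))) := Or.inl ⟨i, y, rfl, rfl, h1⟩
  have h4 : Cheap e A B (e (Sum.inr (Sum.inr y))) (e (Sum.inr (Sum.inl j))) :=
    Or.inr ⟨y, j, rfl, rfl, h2⟩
  simp [walkLen, wt, h3, h4]

theorem le_walk_of_not_cheap {A : I → K → Prop} {B : K → J → Prop} {u : Fin n}
    (h : ∀ v, ¬ Cheap e A B u v) (l : List (Fin n)) (v : Fin n) :
    W ≤ walkLen (wt e W A B) u l v := by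
  cases l with
  | nil => simp [walkLen, wt, h]
  | cons y l => simp [walkLen, wt, h]

theorem le_dist {A : I → K → Prop} {B : K → J → Prop} {i : I} {j : J}
    (h : ∀ y, A i y → B y j → False) :
    W ≤ dist (wt e W A B) (e (Sum.inl i)) (e (Sum.inr (Sum.inl j))) := by
  refine le_ciInf fun l => ?_
  cases l with
  | nil =>
    have h1 : ¬ Cheap e A B (e (Sum.inl i)) (e (Sum.inr (Sum.inl j))) := by
      simp [Cheap]
    simp [walkLen, wt, h1]
  | cons y l =>
    by_cases h1 : Cheap e A B (e (Sum.inl i)) y
    · rcases h1 with ⟨i', y', h2, rfl, h3⟩ | ⟨y', j', h2, -⟩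
      · have hi : i' = i := by simpa using h2.symm
        subst hi
        cases l with
        | nil =>
          have h4 : ¬ Cheap e A B (e (Sum.inr (Sum.inr y'))) (e (Sum.inr (Sum.inl j))) := by
            rintro (⟨i'', y'', h5, -⟩ | ⟨y'', j'', h5, h6, h7⟩)
            · simp at h5
            · have hy : y' = y'' := by simpa using h5
              have hj : j = j'' := by simpa using h6
              subst hy; subst hj
              exact h _ h3 h7
          simp [walkLen, wt, h4]
        | cons z l =>
          by_cases h4 : Cheap e A B (e (Sum.inr (Sum.inr y'))) z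
          · rcases h4 with ⟨i'', y'', h5, -⟩ | ⟨y'', j'', h5, rfl, -⟩
            · simp at h5
            · have h6 : ∀ v, ¬ Cheap e A B (e (Sum.inr (Sum.inl j''))) v := by
                intro v; simp [Cheap]
              have := le_walk_of_not_cheap (W := W) h6 l (e (Sum.inr (Sum.inl j)))
              simp only [walkLen]
              omega
          · have h5 : wt e W A B (e (Sum.inr (Sum.inr y'))) z = W := by simp [wt, h4]
            simp only [walkLen, h5]
            omega
      · simp at h2
    · have h5 : wt e W A B (e (Sum.inl i)) y = W := by simp [wt, h1]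
      simp only [walkLen, h5]
      omega

end graph

/-! ### From weights to bits -/

section conv

variable {N n D : ℕ} (e : Fin N ⊕ (Fin N ⊕ Fin N) ↪ Fin n) (W : ℕ) (M : Fin N → Fin N → Bool)

/-- the edge of an entry of the vectors -/
def hid (p : Fin N × Fin N) : Fin n × Fin n :=
  (e (Sum.inr (Sum.inr p.2)), e (Sum.inr (Sum.inl p.1)))

lemma hid_inj {p q : Fin N × Fin N} (h : hid e p = hid e q) : p = q := by
  unfold hid at h
  obtain ⟨h1, h2⟩ := Prod.mk.inj h
  have h3 : p.2 = q.2 := by simpa using h1
  have h4 : p.1 = q.1 := by simpa using h2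
  exact Prod.ext h4 h3

/-- the weights for the vectors `x` -/
noncomputable def wx (x : Fin N × Fin N → Bool) : Fin n → Fin n → ℕ :=
  wt e W (fun i k => M i k = true) (fun k j => x (j, k) = true)

lemma wx_hid (x : Fin N × Fin N → Bool) (p : Fin N × Fin N) :
    wx e W M x (hid e p).1 (hid e p).2 = if x p = true then 1 else W := by
  unfold wx wt hid
  have h : Cheap e (fun i k => M i k = true) (fun k j => x (j, k) = true)
      (e (Sum.inr (Sum.inr p.2))) (e (Sum.inr (Sum.inl p.1))) ↔ x p = true := by
    constructor
    · rintro (⟨i, y, h1, -⟩ | ⟨y, j, h1, h2, h3⟩)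
      · simp at h1
      · have h4 : p.2 = y := by simpa using h1
        have h5 : p.1 = j := by simpa using h2
        rw [← h4, ← h5] at h3
        exact h3
    · intro h
      exact Or.inr ⟨p.2, p.1, rfl, rfl, h⟩
  by_cases hx : x p = true
  · rw [if_pos (h.mpr hx), if_pos hx]
  · rw [if_neg (fun h1 => hx (h.mp h1)), if_neg hx]

lemma wx_fixed (x x' : Fin N × Fin N → Bool) (ε : Fin n × Fin n) (hε : ∀ p, hid e p ≠ ε) :
    wx e W M x ε.1 ε.2 = wx e W M x' ε.1 ε.2 := by
  have h : ∀ z : Fin N × Fin N → Bool, Cheap e (fun i k => M i k = true)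
      (fun k j => z (j, k) = true) ε.1 ε.2 ↔
      ∃ i y, ε.1 = e (Sum.inl i) ∧ ε.2 = e (Sum.inr (Sum.inr y)) ∧ M i y = true := by
    intro z
    constructor
    · rintro (h1 | ⟨y, j, h1, h2, h3⟩)
      · exact h1
      · exact absurd (Prod.ext h1.symm h2.symm : hid e (j, y) = ε) (hε _)
    · exact fun h1 => Or.inl h1
  unfold wx wt
  by_cases hc : ∃ i y, ε.1 = e (Sum.inl i) ∧ ε.2 = e (Sum.inr (Sum.inr y)) ∧ M i y = true
  · rw [if_pos ((h x).mpr hc), if_pos ((h x').mpr hc)]
  · rw [if_neg (fun h1 => hc ((h x).mp h1)), if_neg (fun h1 => hc ((h x').mp h1))]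

open Classical in
/-- the faults of the edges: given on the edges of the entries, arbitrary elsewhere -/
noncomputable def join (g : Fin n × Fin n → Fin D) (f : Fin N × Fin N → Fin D) :
    Fin n × Fin n → Fin D :=
  fun ε => if h : ∃ p, hid e p = ε then f h.choose else g ε

lemma join_hid (g : Fin n × Fin n → Fin D) (f : Fin N × Fin N → Fin D) (p : Fin N × Fin N) :
    join e g f (hid e p) = f p := by
  unfold join
  have h : ∃ p', hid e p' = hid e p := ⟨p, rfl⟩
  rw [dif_pos h]
  congr 1
  exact hid_inj e h.choose_spec

lemma join_fixed (g : Fin n × Fin n → Fin D) (f : Fin N × Fin N → Fin D) (ε : Fin n × Fin n)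
    (hε : ¬ ∃ p, hid e p = ε) : join e g f ε = g ε := by
  unfold join
  rw [dif_neg hε]

lemma join_join (g : Fin n × Fin n → Fin D) (f : Fin N × Fin N → Fin D) :
    join e (join e g f) (fun p => g (hid e p)) = g := by
  funext ε
  by_cases h : ∃ p, hid e p = ε
  · obtain ⟨p, rfl⟩ := h
    rw [join_hid]
  · rw [join_fixed e _ _ _ h, join_fixed e _ _ _ h]

open Classical in
/-- the literal of an input -/
noncomputable def litOf (p0 : Fin N × Fin N) (q : (Fin n × Fin n) × Bool) :
    (Fin N × Fin N) × Bool :=
  (if h : ∃ p, hid e p = q.1 then h.choose else p0, q.2)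

open Classical in
/-- the value of an input as a function of the value of its literal -/
noncomputable def conv (g : Fin n × Fin n → Fin D) (q : (Fin n × Fin n) × Bool) (x : ℝ) : ℝ :=
  if ∃ p, hid e p = q.1 then
    (if q.2 = true then (W : ℝ) - (W - 1) * x else -1 - (W - 1) * x)
  else
    (if q.2 = true then (wx e W M (fun _ => false) q.1.1 q.1.2 : ℝ) else
      if (g q.1 : ℕ) = 0 then -1 else -(wx e W M (fun _ => false) q.1.1 q.1.2 : ℝ))

lemma conv_anti (hW : 1 ≤ W) (g : Fin n × Fin n → Fin D) (q : (Fin n × Fin n) × Bool) {x y : ℝ}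
    (h : x ≤ y) : conv e W M g q y ≤ conv e W M g q x := by
  have hWR : (1 : ℝ) ≤ W := by exact_mod_cast hW
  have h1 : ((W : ℝ) - 1) * x ≤ (W - 1) * y := mul_le_mul_of_nonneg_left h (by linarith)
  unfold conv
  split_ifs
  · linarith
  · linarith
  · exact le_refl _
  · exact le_refl _
  · exact le_refl _

/-- the values of the inputs -/
noncomputable def inp (p0 : Fin N × Fin N) (g : Fin n × Fin n → Fin D)
    (y : (Fin N × Fin N) × Bool → Bool) : (Fin n × Fin n) × Bool → ℝ :=
  fun q => conv e W M g q (if y (litOf e p0 q) = true then 1 else 0)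

lemma inp_eq (hW : 1 ≤ W) (p0 : Fin N × Fin N) (g : Fin n × Fin n → Fin D)
    (f : Fin N × Fin N → Fin D) (x : Fin N × Fin N → Bool) :
    inp e W M p0 g (literals x {p | (f p : ℕ) = 0}) =
      weights (wx e W M x) {ε | (join e g f ε : ℕ) = 0} := by
  have lf : ∀ p, literals x {p | (f p : ℕ) = 0} (p, false) = true ↔
      ¬ (f p : ℕ) = 0 ∧ x p = false := by
    intro p
    unfold literals
    by_cases hf : (f p : ℕ) = 0
    · simp [hf]
    · simp [hf]
  have lt : ∀ p, literals x {p | (f p : ℕ) = 0} (p, true) = true ↔ x p = true := by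
    intro p
    unfold literals
    simp
  funext q
  obtain ⟨ε, b⟩ := q
  by_cases h : ∃ p, hid e p = ε
  · have hl : litOf e p0 (ε, b) = (h.choose, b) := by
      unfold litOf
      rw [dif_pos h]
    have hch := h.choose_spec
    obtain ⟨p, hp⟩ : ∃ p, p = h.choose := ⟨_, rfl⟩
    rw [← hp] at hl hch
    subst hch
    cases b
    · have e1 : inp e W M p0 g (literals x {p | (f p : ℕ) = 0}) (hid e p, false) =
          -1 - ((W : ℝ) - 1) *
            (if literals x {p | (f p : ℕ) = 0} (p, false) = true then 1 else 0) := by
        unfold inp conv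
        rw [if_pos h, hl]
        exact if_neg (by simp)
      have e2 : weights (wx e W M x) {ε | (join e g f ε : ℕ) = 0} (hid e p, false) =
          if (f p : ℕ) = 0 then -1 else -(((if x p = true then 1 else W : ℕ)) : ℝ) := by
        unfold weights
        rw [if_neg (by simp)]
        simp only [Set.mem_setOf_eq, join_hid, wx_hid]
      rw [e1, e2]
      by_cases hf : (f p : ℕ) = 0
      · rw [if_neg (fun h1 => ((lf p).mp h1).1 hf), if_pos hf]
        ring
      · rw [if_neg hf]
        cases hx : x p
        · rw [if_pos ((lf p).mpr ⟨hf, hx⟩), if_neg (by simp)]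
          ring
        · rw [if_neg (fun h1 => by
            have := ((lf p).mp h1).2
            rw [hx] at this
            exact absurd this (by simp)), if_pos rfl]
          push_cast
          ring
    · have e1 : inp e W M p0 g (literals x {p | (f p : ℕ) = 0}) (hid e p, true) =
          (W : ℝ) - ((W : ℝ) - 1) *
            (if literals x {p | (f p : ℕ) = 0} (p, true) = true then 1 else 0) := by
        unfold inp conv
        rw [if_pos h, hl]
        exact if_pos rfl
      have e2 : weights (wx e W M x) {ε | (join e g f ε : ℕ) = 0} (hid e p, true) =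
          (((if x p = true then 1 else W : ℕ)) : ℝ) := by
        unfold weights
        rw [if_pos rfl, wx_hid]
      rw [e1, e2]
      cases hx : x p
      · rw [if_neg (fun h1 => by
          have := (lt p).mp h1
          rw [hx] at this
          exact absurd this (by simp)), if_neg (by simp)]
        ring
      · rw [if_pos ((lt p).mpr hx), if_pos rfl]
        push_cast
        ring
  · have hw := wx_fixed e W M x (fun _ => false) ε (fun p hp => h ⟨p, hp⟩)
    cases b
    · have e1 : inp e W M p0 g (literals x {p | (f p : ℕ) = 0}) (ε, false) =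
          if (g ε : ℕ) = 0 then -1 else -(wx e W M (fun _ => false) ε.1 ε.2 : ℝ) := by
        unfold inp conv
        rw [if_neg h]
        exact if_neg (by simp)
      have e2 : weights (wx e W M x) {ε | (join e g f ε : ℕ) = 0} (ε, false) =
          if (g ε : ℕ) = 0 then -1 else -(wx e W M (fun _ => false) ε.1 ε.2 : ℝ) := by
        unfold weights
        rw [if_neg (by simp)]
        simp only [Set.mem_setOf_eq, join_fixed e g f ε h]
        rw [hw]
      rw [e1, e2]
    · have e1 : inp e W M p0 g (literals x {p | (f p : ℕ) = 0}) (ε, true) =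
          (wx e W M (fun _ => false) ε.1 ε.2 : ℝ) := by
        unfold inp conv
        rw [if_neg h]
        exact if_pos rfl
      have e2 : weights (wx e W M x) {ε | (join e g f ε : ℕ) = 0} (ε, true) =
          (wx e W M (fun _ => false) ε.1 ε.2 : ℝ) := by
        unfold weights
        rw [if_pos rfl, hw]
      rw [e1, e2]

lemma inp_ge (hW : 1 ≤ W) (p0 : Fin N × Fin N) (g : Fin n × Fin n → Fin D)
    (x : Fin N × Fin N → Bool) :
    weights (wx e W M x) ∅ ≤ inp e W M p0 g (literals x ∅) := by
  have lf : ∀ p, literals x (∅ : Set (Fin N × Fin N)) (p, false) = true ↔ x p = false := by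
    intro p
    unfold literals
    simp
  have lt : ∀ p, literals x (∅ : Set (Fin N × Fin N)) (p, true) = true ↔ x p = true := by
    intro p
    unfold literals
    simp
  rintro ⟨ε, b⟩
  by_cases h : ∃ p, hid e p = ε
  · have hl : litOf e p0 (ε, b) = (h.choose, b) := by
      unfold litOf
      rw [dif_pos h]
    have hch := h.choose_spec
    obtain ⟨p, hp⟩ : ∃ p, p = h.choose := ⟨_, rfl⟩
    rw [← hp] at hl hch
    subst hch
    cases b
    · have e1 : inp e W M p0 g (literals x ∅) (hid e p, false) =
          -1 - ((W : ℝ) - 1) *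
            (if literals x (∅ : Set (Fin N × Fin N)) (p, false) = true then 1 else 0) := by
        unfold inp conv
        rw [if_pos h, hl]
        exact if_neg (by simp)
      have e2 : weights (wx e W M x) ∅ (hid e p, false) =
          -(((if x p = true then 1 else W : ℕ)) : ℝ) := by
        unfold weights
        rw [if_neg (by simp), if_neg (Set.notMem_empty _), wx_hid]
      rw [e1, e2]
      cases hx : x p
      · rw [if_pos ((lf p).mpr hx), if_neg (by simp)]
        refine le_of_eq ?_
        ring
      · have h1 : ¬ literals x (∅ : Set (Fin N × Fin N)) (p, false) = true := by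
          intro h1
          have := (lf p).mp h1
          rw [hx] at this
          exact absurd this (by simp)
        rw [if_neg h1, if_pos rfl]
        refine le_of_eq ?_
        push_cast
        ring
    · have e1 : inp e W M p0 g (literals x ∅) (hid e p, true) =
          (W : ℝ) - ((W : ℝ) - 1) *
            (if literals x (∅ : Set (Fin N × Fin N)) (p, true) = true then 1 else 0) := by
        unfold inp conv
        rw [if_pos h, hl]
        exact if_pos rfl
      have e2 : weights (wx e W M x) ∅ (hid e p, true) =
          (((if x p = true then 1 else W : ℕ)) : ℝ) := by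
        unfold weights
        rw [if_pos rfl, wx_hid]
      rw [e1, e2]
      cases hx : x p
      · have h1 : ¬ literals x (∅ : Set (Fin N × Fin N)) (p, true) = true := by
          intro h1
          have := (lt p).mp h1
          rw [hx] at this
          exact absurd this (by simp)
        rw [if_neg h1, if_neg (by simp)]
        refine le_of_eq ?_
        ring
      · rw [if_pos ((lt p).mpr hx), if_pos rfl]
        refine le_of_eq ?_
        push_cast
        ring
  · have hw := wx_fixed e W M x (fun _ => false) ε (fun p hp => h ⟨p, hp⟩)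
    have hw1 : (1 : ℝ) ≤ wx e W M (fun _ => false) ε.1 ε.2 := by
      have : 1 ≤ wx e W M (fun _ => false) ε.1 ε.2 := by
        rcases wt_values (e := e) (W := W) (fun i k => M i k = true)
          (fun k j => (fun _ => false : Fin N × Fin N → Bool) (j, k) = true) ε.1 ε.2 with h1 | h1
        · exact h1.ge
        · unfold wx
          rw [h1]
          exact hW
      exact_mod_cast this
    cases b
    · have e1 : inp e W M p0 g (literals x ∅) (ε, false) =
          if (g ε : ℕ) = 0 then -1 else -(wx e W M (fun _ => false) ε.1 ε.2 : ℝ) := by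
        unfold inp conv
        rw [if_neg h]
        exact if_neg (by simp)
      have e2 : weights (wx e W M x) ∅ (ε, false) =
          -(wx e W M (fun _ => false) ε.1 ε.2 : ℝ) := by
        unfold weights
        rw [if_neg (by simp), if_neg (Set.notMem_empty _), hw]
      rw [e1, e2]
      split_ifs
      · linarith
      · exact le_refl _
    · have e1 : inp e W M p0 g (literals x ∅) (ε, true) =
          (wx e W M (fun _ => false) ε.1 ε.2 : ℝ) := by
        unfold inp conv
        rw [if_neg h]
        exact if_pos rfl
      have e2 : weights (wx e W M x) ∅ (ε, true) =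
          (wx e W M (fun _ => false) ε.1 ε.2 : ℝ) := by
        unfold weights
        rw [if_pos rfl, hw]
      rw [e1, e2]

/-- the circuit for the vectors -/
noncomputable def toLit (hW : 1 ≤ W) (p0 : Fin N × Fin N) (g : Fin n × Fin n → Fin D)
    (C : WeightNetwork n) : LiteralNetwork (Fin N × Fin N) (Fin N × Fin N) where
  s := C.s
  w := C.w
  a i j := Sum.map (litOf e p0) id (C.a i j)
  op i x := W - C.op i (fun j => Sum.elim (fun q => conv e W M g q (x j)) (fun _ => W - x j)
    (C.a i j))
  val y i := W - C.val (inp e W M p0 g y) i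
  out q := C.out (e (Sum.inl q.1), e (Sum.inr (Sum.inl q.2)))
  earlier i j m h := by
    rcases hc : C.a i j with q | m'
    · rw [hc] at h
      simp at h
    · rw [hc] at h
      simp only [Sum.map_inr, id_eq, Sum.inr.injEq] at h
      rw [← h]
      exact C.earlier i j m' hc
  mono i x x' h := by
    refine sub_le_sub_left (C.mono i fun j => ?_) _
    dsimp only
    rcases hc : C.a i j with q | m'
    · simp only [Sum.elim_inl]
      exact conv_anti e W M hW g q (h j)
    · simp only [Sum.elim_inr]
      exact sub_le_sub_left (h j) _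
  spec y i := by
    rw [C.spec]
    congr 2
    funext j
    dsimp only
    rcases hc : C.a i j with q | m'
    · simp only [Sum.elim_inl, Sum.map_inl]
      rfl
    · simp only [Sum.elim_inr, Sum.map_inr, id_eq]
      ring

lemma toLit_wires (hW : 1 ≤ W) (p0 : Fin N × Fin N) (g : Fin n × Fin n → Fin D)
    (C : WeightNetwork n) : (toLit e W M hW p0 g C).wires = C.wires := rfl

lemma toLit_yes (hW : 1 ≤ W) (p0 : Fin N × Fin N) (g : Fin n × Fin n → Fin D)
    (f : Fin N × Fin N → Fin D) (C : WeightNetwork n) (x : Fin N × Fin N → Bool) (i j : Fin N) :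
    (toLit e W M hW p0 g C).Yes x {p | (f p : ℕ) = 0} (i, j) ↔
      C.output (wx e W M x) {ε | (join e g f ε : ℕ) = 0} (e (Sum.inl i)) (e (Sum.inr (Sum.inl j)))
        < W := by
  unfold LiteralNetwork.Yes WeightNetwork.output
  rw [← inp_eq e W M hW p0 g f x]
  show 0 < (W : ℝ) - C.val (inp e W M p0 g (literals x {p | (f p : ℕ) = 0})) _ ↔ _
  rw [sub_pos]
  exact Iff.rfl

lemma toLit_yes_empty (hW : 1 ≤ W) (p0 : Fin N × Fin N) (g : Fin n × Fin n → Fin D)
    (C : WeightNetwork n) (x : Fin N × Fin N → Bool) (i j : Fin N)
    (h : (toLit e W M hW p0 g C).Yes x ∅ (i, j)) :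
    C.output (wx e W M x) ∅ (e (Sum.inl i)) (e (Sum.inr (Sum.inl j))) < W := by
  have h1 : 0 < (W : ℝ) - C.val (inp e W M p0 g (literals x ∅))
      (C.out (e (Sum.inl i), e (Sum.inr (Sum.inl j)))) := h
  have h2 : C.output (wx e W M x) ∅ (e (Sum.inl i)) (e (Sum.inr (Sum.inl j))) ≤
      C.val (inp e W M p0 g (literals x ∅)) (C.out (e (Sum.inl i), e (Sum.inr (Sum.inl j)))) :=
    wval_mono C (inp_ge e W M hW p0 g x) _ _ rfl
  linarith

end conv

end Pool.Agent.V11231.APF
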