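import Pool.Agent.V11231.APF.Defs

/-! All-pairs shortest paths need reliable negations. -/

set_option autoImplicit false
set_option linter.unusedSectionVars false
set_option linter.unusedVariables false

namespace Pool.Agent.V11231.APF

open Finset Pool.Agent.V11231.FLT Pool.Agent.V11231.OMF
open Pool.Agent.H587R2.MRB (walkLen dist)

open Classical in
/-- **Distances need reliable negations.** -/
theorem apsp_fault (n D W : ℕ) (α : ℝ) (hn : 2 ≤ n) (hD : 1 ≤ D) (hα : 1 ≤ α) (hW : 2 * α < W)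
    (hlog : 1600 * D * Real.logb 2 n ≤ n) {R : Type} [Fintype R] [Nonempty R]
    (C : R → WeightNetwork n)
    (h1 : ∀ w : Fin n → Fin n → ℕ, (∀ u v, w u v = 1 ∨ w u v = W) → ∀ u v, u ≠ v →
      4 / 5 ≤ upperProb C D α w u v)
    (h2 : ∀ w : Fin n → Fin n → ℕ, (∀ u v, w u v = 1 ∨ w u v = W) → ∀ u v, u ≠ v →
      belowProb C w u v ≤ 1 / 4) :
    (n : ℝ) ^ 3 ≤ 10 ^ 5 * D * Real.logb 2 n ^ 2 *
      ((∑ ρ, ((C ρ).wires : ℝ)) / Fintype.card R) := by
  have hDR : (1 : ℝ) ≤ D := by exact_mod_cast hD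
  have hnR : (2 : ℝ) ≤ n := by exact_mod_cast hn
  have hWR : (2 : ℝ) < W := by linarith
  have hW1 : 1 ≤ W := by
    have : 2 < W := by exact_mod_cast hWR
    omega
  have hF : Nonempty (Fin D) := ⟨⟨0, hD⟩⟩
  have hR : (0 : ℝ) < Fintype.card R := by exact_mod_cast Fintype.card_pos
  obtain ⟨N, hN⟩ : ∃ N, N = n / 3 := ⟨_, rfl⟩
  have hlg1 : 1 ≤ Real.logb 2 n := by
    rw [Real.le_logb_iff_rpow_le (by norm_num) (by positivity), Real.rpow_one]
    exact hnR
  have hn1600 : (1600 : ℝ) ≤ n := by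
    have : (1600 : ℝ) * 1 ≤ 1600 * D * Real.logb 2 n := by
      rw [mul_assoc]
      exact mul_le_mul_of_nonneg_left (one_le_mul_of_one_le_of_one_le hDR hlg1) (by norm_num)
    linarith
  have hn2 : 1600 ≤ n := by exact_mod_cast hn1600
  have h3N : 3 * N ≤ n := by omega
  have hn4 : n ≤ 4 * N := by omega
  have hN2 : 2 ≤ N := by omega
  have hNpos : 0 < N := by omega
  have hn4R : (n : ℝ) ≤ 4 * N := by exact_mod_cast hn4
  have hN2R : (2 : ℝ) ≤ N := by exact_mod_cast hN2
  have hNn : (N : ℝ) ≤ n := by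
    have : N ≤ n := by omega
    exact_mod_cast this
  have hlgN : Real.logb 2 N ≤ Real.logb 2 n :=
    Real.logb_le_logb_of_le (by norm_num) (by linarith) hNn
  have hlgN0 : 0 ≤ Real.logb 2 N := Real.logb_nonneg (by norm_num) (by linarith)
  have hlogN : 400 * D * Real.logb 2 N ≤ N := by
    have h3 : 400 * D * Real.logb 2 N ≤ 400 * D * Real.logb 2 n :=
      mul_le_mul_of_nonneg_left hlgN (by positivity)
    linarith
  obtain ⟨M, hM⟩ := omv_fault N D hN2 hD hlogN
  obtain ⟨e⟩ : Nonempty (Fin N ⊕ (Fin N ⊕ Fin N) ↪ Fin n) := by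
    apply Function.Embedding.nonempty_of_card_le
    rw [Fintype.card_sum, Fintype.card_sum, Fintype.card_fin, Fintype.card_fin]
    omega
  obtain ⟨p0, -⟩ : ∃ p0 : Fin N × Fin N, True := ⟨(⟨0, hNpos⟩, ⟨0, hNpos⟩), trivial⟩
  have hne : ∀ i j : Fin N, e (Sum.inl i) ≠ e (Sum.inr (Sum.inl j)) := by
    intro i j h
    simpa using e.injective h
  have hG : (0 : ℝ) < Fintype.card (Fin n × Fin n → Fin D) := by exact_mod_cast Fintype.card_pos
  have hF' : (0 : ℝ) < Fintype.card (Fin N × Fin N → Fin D) := by exact_mod_cast Fintype.card_pos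
  have key := hM (R × (Fin n × Fin n → Fin D)) (fun v => toLit e W M hW1 p0 v.2 (C v.1)) ?_ ?_
  · -- the number of wires
    have e1 : (∑ v : R × (Fin n × Fin n → Fin D),
        ((toLit e W M hW1 p0 v.2 (C v.1)).wires : ℝ)) /
          Fintype.card (R × (Fin n × Fin n → Fin D)) =
        (∑ ρ, ((C ρ).wires : ℝ)) / Fintype.card R := by
      simp only [toLit_wires]
      rw [Fintype.sum_prod_type, Fintype.card_prod]
      simp only [sum_const, card_univ, nsmul_eq_mul]
      rw [← mul_sum]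
      push_cast
      field_simp
    rw [e1] at key
    obtain ⟨A, hA⟩ : ∃ A : ℝ, A = (∑ ρ, ((C ρ).wires : ℝ)) / Fintype.card R := ⟨_, rfl⟩
    rw [← hA] at key ⊢
    have hA0 : 0 ≤ A := by
      rw [hA]
      exact div_nonneg (sum_nonneg fun _ _ => Nat.cast_nonneg _) hR.le
    have h4 : Real.logb 2 N ^ 2 ≤ Real.logb 2 n ^ 2 := pow_le_pow_left₀ hlgN0 hlgN 2
    have hlg0 : 0 ≤ Real.logb 2 n := by linarith
    calc (n : ℝ) ^ 3 ≤ (4 * N) ^ 3 := pow_le_pow_left₀ (by positivity) hn4R 3
      _ = 64 * (N : ℝ) ^ 3 := by ring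
      _ ≤ 64 * (1536 * D * Real.logb 2 N ^ 2 * A) :=
          mul_le_mul_of_nonneg_left key (by norm_num)
      _ = 98304 * (D * A * Real.logb 2 N ^ 2) := by ring
      _ ≤ 98304 * (D * A * Real.logb 2 n ^ 2) :=
          mul_le_mul_of_nonneg_left (mul_le_mul_of_nonneg_left h4 (by positivity)) (by norm_num)
      _ ≤ 10 ^ 5 * (D * A * Real.logb 2 n ^ 2) :=
          mul_le_mul_of_nonneg_right (by norm_num) (by positivity)
      _ = _ := by ring
  · -- positive answers
    intro x i j hx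
    obtain ⟨k, hk, hxk⟩ := hx
    have hd : dist (wx e W M x) (e (Sum.inl i)) (e (Sum.inr (Sum.inl j))) ≤ 2 :=
      dist_le_two (e := e) (W := W) (A := fun i k => M i k = true)
        (B := fun k j => x (j, k) = true) ⟨k, hk, hxk⟩
    have hdR : (dist (wx e W M x) (e (Sum.inl i)) (e (Sum.inr (Sum.inl j))) : ℝ) ≤ 2 := by
      exact_mod_cast hd
    have hαd : α * (dist (wx e W M x) (e (Sum.inl i)) (e (Sum.inr (Sum.inl j))) : ℝ) < W := by
      refine lt_of_le_of_lt ?_ hW
      rw [mul_comm 2 α]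
      exact mul_le_mul_of_nonneg_left hdR (by linarith)
    have h5 := h1 (wx e W M x) (fun u v => wt_values _ _ u v) _ _ (hne i j)
    unfold upperProb at h5
    have hΩ : (0 : ℝ) < Nat.card (R × (Fin n × Fin n → Fin D)) := by
      rw [Nat.card_eq_fintype_card]
      exact_mod_cast Fintype.card_pos
    rw [le_div_iff₀ hΩ] at h5
    unfold faultyYesProb
    have hΩ2 : (0 : ℝ) < Nat.card ((R × (Fin n × Fin n → Fin D)) × (Fin N × Fin N → Fin D)) := by
      rw [Nat.card_eq_fintype_card]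
      exact_mod_cast Fintype.card_pos
    rw [le_div_iff₀ hΩ2]
    have h6 : Nat.card ({v : R × (Fin n × Fin n → Fin D) //
        (C v.1).output (wx e W M x) {ε | (v.2 ε : ℕ) = 0} (e (Sum.inl i))
          (e (Sum.inr (Sum.inl j))) ≤
          α * dist (wx e W M x) (e (Sum.inl i)) (e (Sum.inr (Sum.inl j)))} ×
          (Fin N × Fin N → Fin D)) ≤
        Nat.card {v : (R × (Fin n × Fin n → Fin D)) × (Fin N × Fin N → Fin D) //
          (toLit e W M hW1 p0 v.1.2 (C v.1.1)).Yes x {p | (v.2 p : ℕ) = 0} (i, j)} := by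
      refine Nat.card_le_card_of_injective (fun v => ⟨((v.1.1.1, join e v.1.1.2 v.2),
        fun p => v.1.1.2 (hid e p)), ?_⟩) ?_
      · rw [toLit_yes]
        dsimp only
        rw [join_join]
        exact lt_of_le_of_lt v.1.2 hαd
      · intro v v' h
        simp only [Subtype.mk.injEq, Prod.mk.injEq] at h
        obtain ⟨⟨h7, h8⟩, h9⟩ := h
        have h10 : v.1.1.2 = v'.1.1.2 := by
          rw [← join_join e v.1.1.2 v.2, ← join_join e v'.1.1.2 v'.2, h8, h9]
        have h11 : v.2 = v'.2 := by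
          funext p
          rw [← join_hid e v.1.1.2 v.2 p, ← join_hid e v'.1.1.2 v'.2 p, h8]
        exact Prod.ext (Subtype.ext (Prod.ext h7 h10)) h11
    rw [Nat.card_prod] at h6
    have h7 : (Nat.card ((R × (Fin n × Fin n → Fin D)) × (Fin N × Fin N → Fin D)) : ℝ) =
        Nat.card (R × (Fin n × Fin n → Fin D)) * Nat.card (Fin N × Fin N → Fin D) := by
      rw [Nat.card_prod]
      push_cast
      rfl
    rw [h7, ← mul_assoc]
    refine (mul_le_mul_of_nonneg_right h5 (Nat.cast_nonneg _)).trans ?_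
    exact_mod_cast h6
  · -- negative answers
    intro x i j hx
    have hd : W ≤ dist (wx e W M x) (e (Sum.inl i)) (e (Sum.inr (Sum.inl j))) :=
      le_dist (e := e) (W := W) (A := fun i k => M i k = true)
        (B := fun k j => x (j, k) = true) (fun k hk hxk => hx ⟨k, hk, hxk⟩)
    have hdR : (W : ℝ) ≤ dist (wx e W M x) (e (Sum.inl i)) (e (Sum.inr (Sum.inl j))) := by
      exact_mod_cast hd
    have h5 := h2 (wx e W M x) (fun u v => wt_values _ _ u v) _ _ (hne i j)
    unfold belowProb at h5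
    rw [div_le_iff₀ (by rw [Nat.card_eq_fintype_card]; exact hR)] at h5
    unfold yesProb
    have hΩ : (0 : ℝ) < Nat.card (R × (Fin n × Fin n → Fin D)) := by
      rw [Nat.card_eq_fintype_card]
      exact_mod_cast Fintype.card_pos
    rw [div_le_iff₀ hΩ]
    have h6 : Nat.card {v : R × (Fin n × Fin n → Fin D) //
          (toLit e W M hW1 p0 v.2 (C v.1)).Yes x ∅ (i, j)} ≤
        Nat.card ({ρ : R // (C ρ).output (wx e W M x) ∅ (e (Sum.inl i))
          (e (Sum.inr (Sum.inl j))) <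
          dist (wx e W M x) (e (Sum.inl i)) (e (Sum.inr (Sum.inl j)))} ×
          (Fin n × Fin n → Fin D)) := by
      refine Nat.card_le_card_of_injective (fun v => (⟨v.1.1, ?_⟩, v.1.2)) ?_
      · exact lt_of_lt_of_le (toLit_yes_empty e W M hW1 p0 v.1.2 (C v.1.1) x i j v.2) hdR
      · intro v v' h
        simp only [Prod.mk.injEq, Subtype.mk.injEq] at h
        exact Subtype.ext (Prod.ext h.1 h.2)
    rw [Nat.card_prod] at h6
    have h7 : (Nat.card (R × (Fin n × Fin n → Fin D)) : ℝ) =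
        Nat.card R * Nat.card (Fin n × Fin n → Fin D) := by
      rw [Nat.card_prod]
      push_cast
      rfl
    rw [h7, ← mul_assoc]
    refine le_trans ?_ (mul_le_mul_of_nonneg_right h5 (Nat.cast_nonneg _))
    exact_mod_cast h6

end Pool.Agent.V11231.APF
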